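import Pool.Agent.helper12.DD.Spec2

/-!
# Project dw, module IQC (MP_baa4d7_al): the formula for one chain
-/

set_option autoImplicit false

open Pool.Agent.helper49.Blk

namespace Pool.Agent.DD

theorem IQC_ovr {G : Type} [Group G] [Finite G] (χ : G → ℂ) (h : χ ∈ Irr G) :
    ∑ᶠ x : G, χ x * χ x⁻¹ ≠ 0 := by
  classical
  have := Fintype.ofFinite G
  obtain ⟨V, _, _, _, ρ, hρ, rfl⟩ := h
  rw [finsum_eq_sum_of_fintype]
  have h1 := (orth ρ ρ hρ hρ).2 rfl
  rw [h1]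
  exact_mod_cast Nat.card_pos.ne'

theorem IQC_kC {G E : Type} [Group G] [Group E] (p : ℕ) (M : Ideal (integralClosure ℤ ℂ))
    (ι : G →* E) (χ : G → ℂ) (C : List (Subgroup G)) (d : ℕ) (U : Subgroup E) (H : Subgroup G)
    (h : H = NC C) : kC p M ι χ C d U = (kset p M ι χ H {P | P ∈ C} d U).ncard := by
  subst h
  rfl

/-- the index -/
theorem IQC_index {K W : Type} [Group K] [Finite K] [Group W] [Finite W] (κ : K →* W)
    (hinj : Function.Injective κ) (hn : κ.range.Normal) (q : ℕ) (hq : q.Prime)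
    (hc : Nat.card W = q * Nat.card K) (N : Subgroup W) :
    (N ≤ κ.range ∧ Nat.card N = Nat.card (N.comap κ)) ∨
      Nat.card N = q * Nat.card (N.comap κ) := by
  have h1 : Nat.card κ.range = Nat.card K := (Nat.card_congr (MonoidHom.ofInjective hinj).toEquiv).symm
  have h2 : κ.range.index = q := by
    have h3 := Subgroup.card_mul_index κ.range
    rw [h1, hc, mul_comm] at h3
    exact Nat.eq_of_mul_eq_mul_right Nat.card_pos h3
  have h3 : κ.range.relIndex N ∣ q := h2 ▸ Subgroup.relIndex_dvd_index_of_normal κ.range N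
  have h4 : Nat.card (N.comap κ) = Nat.card (κ.range ⊓ N : Subgroup W) := by
    have h5 : (N.comap κ).map κ = κ.range ⊓ N := by
      rw [Subgroup.map_comap_eq]
    rw [← h5]
    exact (Nat.card_congr ((N.comap κ).equivMapOfInjective κ hinj).toEquiv)
  have h6 : Nat.card (κ.range ⊓ N : Subgroup W) * κ.range.relIndex N = Nat.card N := by
    have h7 := Subgroup.card_mul_index (κ.range.subgroupOf N)
    have h8 : Nat.card (κ.range.subgroupOf N) = Nat.card (κ.range ⊓ N : Subgroup W) := by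
      have h9 : (κ.range.subgroupOf N).map N.subtype = κ.range ⊓ N := by
        rw [Subgroup.subgroupOf_map_subtype]
      rw [← h9]
      exact (Nat.card_congr
        ((κ.range.subgroupOf N).equivMapOfInjective N.subtype N.subtype_injective).toEquiv)
    rw [h8] at h7
    exact h7
  rcases (Nat.dvd_prime hq).1 h3 with h5 | h5
  · left
    refine ⟨Subgroup.relIndex_eq_one.1 h5, ?_⟩
    rw [← h6, h5, mul_one, h4]
  · right
    rw [← h6, h5, h4, mul_comm]

theorem IQC (hCHQ : CHQ_stmt) (hCLN : CLN_stmt) (hCLE : CLE_stmt) (hCLA : CLA_stmt) (hCLB : CLB_stmt)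
    (hSQA : SQA_stmt) (hSQB : SQB_stmt) (hSQC : SQC_stmt) (hTRI : TRI_stmt) (hIRF : IRF_stmt) :
    IQC_stmt := by
  classical
  intro p q m hp hq hqp hqm K W E _ _ _ _ _ κ ω V₀ hT M χ χ' d C hB
  have hN : (NC (cW κ C)).comap κ = NC C :=
    (hCHQ p q hp hq hqp K W κ hT.κinj hT.κnor hT.card).2.1 C
  rw [IQC_kC p M (ω.comp κ) χ C d ⊤ _ hN, IQC_kC p M (ω.comp κ) χ C d V₀ _ hN,
    IQC_kC p M ω χ' (cW κ C) d ⊤ _ rfl, ← hN]
  have hA := hSQA p q m hp hq hqp hqm K W E κ ω V₀ hT C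
  have hBB := hSQB p q m hp hq hqp hqm K W E κ ω V₀ hT C
  have hCC := hSQC p q m hp hq hqp hqm K W E κ ω V₀ hT C
  clear hN
  obtain ⟨N, hNN⟩ : ∃ N, N = NC (cW κ C) := ⟨_, rfl⟩
  rw [← hNN] at hB hA hBB hCC ⊢
  clear hNN
  have hjinj : Function.Injective (κ.subgroupComap N) := by
    intro a b hab
    apply Subtype.ext
    apply hT.κinj
    exact congrArg Subtype.val hab
  have hqK : (Nat.card K : ℚ) ≠ 0 := by exact_mod_cast Nat.card_pos.ne'
  have hq0 : (q : ℚ) ≠ 0 := by exact_mod_cast hq.ne_zero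
  have hWK : (Nat.card W : ℚ) = q * Nat.card K := by exact_mod_cast hT.card
  rcases IQC_index κ hT.κinj hT.κnor q hq hT.card N with ⟨hle, hcard⟩ | hcard
  · -- `N` is contained in `K`
    have hjsurj : Function.Surjective (κ.subgroupComap N) := by
      intro y
      obtain ⟨x, hx⟩ := hle y.2
      refine ⟨⟨x, ?_⟩, Subtype.ext hx⟩
      rw [Subgroup.mem_comap, hx]
      exact y.2
    let e : N.comap κ ≃* N := MulEquiv.ofBijective (κ.subgroupComap N) ⟨hjinj, hjsurj⟩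
    let F : (N → ℂ) → (N.comap κ → ℂ) := fun φ x => φ (κ.subgroupComap N x)
    have hFinj : Function.Injective F := by
      intro φ φ' h
      funext y
      obtain ⟨x, rfl⟩ := hjsurj y
      exact congrFun h x
    have hFsurj : ∀ ψ : N.comap κ → ℂ, ∃ φ, F φ = ψ := by
      intro ψ
      refine ⟨fun y => ψ (e.symm y), ?_⟩
      funext x
      change ψ (e.symm (e x)) = ψ x
      rw [e.symm_apply_apply]
    have hirr : ∀ φ : N → ℂ, φ ∈ Irr N ↔ F φ ∈ Irr (N.comap κ) := fun φ => hTRI _ _ e φ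
    have hdef : ∀ φ : N → ℂ, Defc p φ d ↔ Defc p (F φ) d := by
      intro φ
      have h1 : F φ 1 = φ 1 := by
        change φ (κ.subgroupComap N 1) = φ 1
        rw [map_one]
      unfold Defc
      rw [h1, hcard]
    have hovr : ∀ φ ∈ Irr N, Ovr (κ.subgroupComap N) φ (F φ) := by
      intro φ hφ
      exact IQC_ovr (F φ) ((hirr φ).1 hφ)
    have hempty : kset p M (ω.comp κ) χ (N.comap κ) {P | P ∈ C} d ⊤ = ∅ := by
      rw [Set.eq_empty_iff_forall_notMem]
      rintro ψ ⟨-, -, -, h4⟩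
      obtain ⟨φ, rfl⟩ := hFsurj ψ
      exact (hCC hle φ).2 h4
    have himage : kset p M (ω.comp κ) χ (N.comap κ) {P | P ∈ C} d V₀ =
        F '' (kset p M ω χ' N {P | P ∈ cW κ C} d ⊤) := by
      ext ψ
      constructor
      · rintro ⟨h1, h2, h3, h4⟩
        obtain ⟨φ, rfl⟩ := hFsurj ψ
        have hφ := (hirr φ).2 h1
        have hd := (hdef φ).2 h2
        exact ⟨φ, ⟨hφ, hd, (hB φ hφ _ h1 hd (hovr φ hφ)).2 h3, (hCC hle φ).1.2 h4⟩, rfl⟩
      · rintro ⟨φ, ⟨h1, h2, h3, h4⟩, rfl⟩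
        exact ⟨(hirr φ).1 h1, (hdef φ).1 h2,
          (hB φ h1 _ ((hirr φ).1 h1) h2 (hovr φ h1)).1 h3, (hCC hle φ).1.1 h4⟩
    rw [hempty, himage, Set.ncard_image_of_injective _ hFinj, Set.ncard_empty, hcard, hWK]
    field_simp
    push_cast
    ring
  · -- `|N| = q |N₀|`
    have hjn : (κ.subgroupComap N).range.Normal := by
      refine ⟨fun y hy b => ?_⟩
      obtain ⟨x, rfl⟩ := hy
      obtain ⟨z, hz⟩ := hT.κnor.conj_mem (κ x.1) ⟨x.1, rfl⟩ (b : W)
      refine ⟨⟨z, ?_⟩, Subtype.ext hz⟩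
      rw [Subgroup.mem_comap, hz]
      exact N.mul_mem (N.mul_mem b.2 x.2) (N.inv_mem b.2)
    have hvp : padicValNat p (Nat.card N) = padicValNat p (Nat.card (N.comap κ)) := by
      have := Fact.mk hp
      have := Fact.mk hq
      rw [hcard, padicValNat.mul hq.ne_zero Nat.card_pos.ne', padicValNat_primes hqp.symm, zero_add]
    have hvq : ∀ n : ℕ, 0 < n → padicValNat p (q * n) = padicValNat p n := by
      intro n hn
      have := Fact.mk hp
      have := Fact.mk hq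
      rw [padicValNat.mul hq.ne_zero hn.ne', padicValNat_primes hqp.symm, zero_add]
    have hdef : ∀ φ ∈ Irr N, ∀ ψ ∈ Irr (N.comap κ), Ovr (κ.subgroupComap N) φ ψ →
        (Defc p φ d ↔ Defc p ψ d) := by
      intro φ hφ ψ hψ ho
      obtain ⟨⟨n, hn, hn1⟩, -⟩ := (hIRF (N.comap κ)).2 ψ hψ
      by_cases hi : Ivt (κ.subgroupComap N) ψ
      · have h1 := (hCLA _ _ (κ.subgroupComap N) hjinj hjn q hq hcard ψ hψ hi).1 φ hφ ho 1
        rw [map_one] at h1
        unfold Defc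
        rw [h1, hvp]
      · have h1 := ((hCLB _ _ (κ.subgroupComap N) hjinj hjn q hq hcard ψ hψ hi).2 φ hφ ho).1
        unfold Defc
        rw [h1, hvp, hn1]
        constructor
        · rintro ⟨k, hk, hk2⟩
          have hk3 : k = q * n := by exact_mod_cast hk.symm
          refine ⟨n, rfl, ?_⟩
          rw [← hk2, hk3, hvq n hn]
        · rintro ⟨k, hk, hk2⟩
          have hk3 : k = n := by exact_mod_cast hk.symm
          refine ⟨q * n, by push_cast; rfl, ?_⟩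
          rw [← hk2, hk3, hvq n hn]
    have hcount := hCLN _ _ (κ.subgroupComap N) hjinj hjn q hq hcard
      (fun φ => Defc p φ d ∧ Induces M N χ' φ ∧ StabIs ω {P | P ∈ cW κ C} N φ ⊤)
      (fun ψ => Defc p ψ d ∧ Induces M (N.comap κ) χ ψ ∧
        (StabIs (ω.comp κ) {P | P ∈ C} (N.comap κ) ψ ⊤ ∨
          StabIs (ω.comp κ) {P | P ∈ C} (N.comap κ) ψ V₀))
      (by
        intro φ hφ ψ hψ ho
        have hd := hdef φ hφ ψ hψ ho
        by_cases hi : Ivt (κ.subgroupComap N) ψ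
        · obtain ⟨h1, h2⟩ := hA hcard φ hφ ψ hψ ho hi
          constructor
          · rintro ⟨h3, h4, h5⟩
            exact ⟨hd.1 h3, (hB φ hφ ψ hψ h3 ho).1 h4, Or.inl (h1.1 h5)⟩
          · rintro ⟨h3, h4, h5⟩
            exact ⟨hd.2 h3, (hB φ hφ ψ hψ (hd.2 h3) ho).2 h4, h1.2 (h5.resolve_right h2)⟩
        · obtain ⟨h1, h2⟩ := hBB hcard φ hφ ψ hψ ho hi
          constructor
          · rintro ⟨h3, h4, h5⟩
            exact ⟨hd.1 h3, (hB φ hφ ψ hψ h3 ho).1 h4, Or.inr (h1.1 h5)⟩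
          · rintro ⟨h3, h4, h5⟩
            exact ⟨hd.2 h3, (hB φ hφ ψ hψ (hd.2 h3) ho).2 h4, h1.2 (h5.resolve_left h2)⟩)
    have hs1 : {ψ : N.comap κ → ℂ | ψ ∈ Irr (N.comap κ) ∧ Ivt (κ.subgroupComap N) ψ ∧
        (Defc p ψ d ∧ Induces M (N.comap κ) χ ψ ∧
        (StabIs (ω.comp κ) {P | P ∈ C} (N.comap κ) ψ ⊤ ∨
          StabIs (ω.comp κ) {P | P ∈ C} (N.comap κ) ψ V₀))} =
        kset p M (ω.comp κ) χ (N.comap κ) {P | P ∈ C} d ⊤ := by
      ext ψ
      constructor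
      · rintro ⟨h1, h2, h3, h4, h5⟩
        obtain ⟨φ, hφ, ho⟩ := hCLE _ _ (κ.subgroupComap N) hjinj ψ h1
        exact ⟨h1, h3, h4, h5.resolve_right (hA hcard φ hφ ψ h1 ho h2).2⟩
      · rintro ⟨h1, h3, h4, h5⟩
        obtain ⟨φ, hφ, ho⟩ := hCLE _ _ (κ.subgroupComap N) hjinj ψ h1
        refine ⟨h1, ?_, h3, h4, Or.inl h5⟩
        by_contra hi
        exact (hBB hcard φ hφ ψ h1 ho hi).2 h5
    have hs2 : {ψ : N.comap κ → ℂ | ψ ∈ Irr (N.comap κ) ∧ ¬ Ivt (κ.subgroupComap N) ψ ∧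
        (Defc p ψ d ∧ Induces M (N.comap κ) χ ψ ∧
        (StabIs (ω.comp κ) {P | P ∈ C} (N.comap κ) ψ ⊤ ∨
          StabIs (ω.comp κ) {P | P ∈ C} (N.comap κ) ψ V₀))} =
        kset p M (ω.comp κ) χ (N.comap κ) {P | P ∈ C} d V₀ := by
      ext ψ
      constructor
      · rintro ⟨h1, h2, h3, h4, h5⟩
        obtain ⟨φ, hφ, ho⟩ := hCLE _ _ (κ.subgroupComap N) hjinj ψ h1
        exact ⟨h1, h3, h4, h5.resolve_left (hBB hcard φ hφ ψ h1 ho h2).2⟩
      · rintro ⟨h1, h3, h4, h5⟩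
        obtain ⟨φ, hφ, ho⟩ := hCLE _ _ (κ.subgroupComap N) hjinj ψ h1
        refine ⟨h1, ?_, h3, h4, Or.inr h5⟩
        intro hi
        exact (hA hcard φ hφ ψ h1 ho hi).2 h5
    have hs3 : {φ : N → ℂ | φ ∈ Irr N ∧ (Defc p φ d ∧ Induces M N χ' φ ∧
        StabIs ω {P | P ∈ cW κ C} N φ ⊤)} = kset p M ω χ' N {P | P ∈ cW κ C} d ⊤ := rfl
    rw [hs1, hs2, hs3] at hcount
    rw [hcount, hcard, hWK]
    push_cast
    field_simp

end Pool.Agent.DD
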